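import Mathlib

set_option autoImplicit false

namespace Pool.Agent.Results.MP_1de1cd_co.Turan

open Finset SimpleGraph

def ch (n a : ℕ) : ℕ := if a ≤ n then n.descFactorial (n - a) / (n - a).factorial else 0

theorem ch_eq (n a : ℕ) : ch n a = n.choose a := by
  unfold ch
  split_ifs with h
  · rw [← Nat.choose_eq_descFactorial_div_factorial, Nat.choose_symm h]
  · rw [Nat.choose_eq_zero_of_lt (by omega)]

def t (k w : ℕ) : ℕ := (k ^ 2 - (k % w) ^ 2) * (w - 1) / (2 * w) + k % w * (k % w - 1) / 2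

def num (k a D N p : ℕ) : Prop :=
  ch D a * (k - D) + N * ((p + 1) * ch p (a - 1)) + D * (D - 1) * ch p (a - 1) <
    N * ch (p + 1) a + N * D * ch p (a - 1)

instance (k a D N p : ℕ) : Decidable (num k a D N p) := inferInstanceAs (Decidable (_ < _))

def ok (w k : ℕ) : Prop := t (k + 1) w = t k w + (k - k / w) ∧
  #((range (k + 1)).filter (· % w = k % w)) = k / w + 1 ∧ ∀ D ∈ Ioc (k - k / w) k,
    num k (k - k / w) D (k + t k w + (k - k / w) - D) (D - D * (D - 1) / (k + t k w + (k - k / w) - D) - 1)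

instance (w k : ℕ) : Decidable (ok w k) := inferInstanceAs (Decidable (_ ∧ _ ∧ _))

theorem ok2 : ∀ k < 148, ok 2 k := by decide +kernel

theorem ok3 : ∀ w < 55, 3 ≤ w → ∀ k < 54, ok w k := by decide +kernel

theorem line (p b n : ℕ) :
    (p + 1).choose (b + 1) + n * p.choose b ≤ n.choose (b + 1) + (p + 1) * p.choose b := by
  rcases le_total (p + 1) n with h | h
  · induction n, h using Nat.le_induction with
    | base => rfl
    | succ n h ih =>
      have := Nat.choose_le_choose b (show p ≤ n by omega)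
      rw [Nat.choose_succ_succ' n, add_mul n]; omega
  · induction h using Nat.decreasingInduction with
    | self => rfl
    | of_succ n h ih =>
      have := Nat.choose_le_choose b (show n ≤ p by omega)
      rw [Nat.choose_succ_succ' n, add_mul n] at ih; omega

variable {V : Type} [DecidableEq V] (H : SimpleGraph V) [DecidableRel H.Adj]

theorem avg (X R : Finset V) (k a p : ℕ) (ha : 0 < a) (h : ∀ u ∈ X, #(R.filter (H.Adj u)) ≤ #X - 1)
    (hn : num k a #X #R p) : ∃ A ⊆ X, #A = a ∧ k - #X < #(R.filter fun y => ∀ u ∈ A, ¬ H.Adj u y) := by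
  by_contra! c
  obtain ⟨b, rfl⟩ : ∃ b, a = b + 1 := ⟨a - 1, by omega⟩
  simp only [num, ch_eq, add_tsub_cancel_right] at hn
  have s1 := sum_le_sum fun y (_ : y ∈ R) => line p b #(X.filter fun u => ¬ H.Adj u y)
  have s2 : ∑ y ∈ R, (#(X.filter fun u => ¬ H.Adj u y)).choose (b + 1) ≤ (#X).choose (b + 1) * (k - #X) := by
    rw [← card_powersetCard, ← smul_eq_mul, ← sum_const]
    refine le_trans (le_of_eq ?_) (sum_le_sum fun A hA =>
      c A (mem_powersetCard.mp hA).1 (mem_powersetCard.mp hA).2)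
    simp only [card_filter (fun y => ∀ u ∈ _, ¬ H.Adj u y)]
    rw [sum_comm]
    refine sum_congr rfl fun y _ => ?_
    rw [← card_powersetCard, ← card_filter]
    congr 1
    ext A
    simp only [mem_powersetCard, mem_filter, subset_iff]
    exact ⟨fun ⟨h1, h2⟩ => ⟨⟨fun u hu => (h1 hu).1, h2⟩, fun u hu => (h1 hu).2⟩,
      fun ⟨⟨h1, h2⟩, h3⟩ => ⟨fun u hu => ⟨h1 hu, h3 u hu⟩, h2⟩⟩
  have s3 : ∑ y ∈ R, #(X.filter fun u => H.Adj u y) ≤ #X * (#X - 1) := by
    refine le_trans (le_of_eq ?_) (sum_le_card_nsmul X _ _ h)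
    simp only [card_filter]
    rw [sum_comm]
  have s4 : ∑ y ∈ R, #(X.filter fun u => H.Adj u y) + ∑ y ∈ R, #(X.filter fun u => ¬ H.Adj u y) =
      #R * #X := by
    rw [← sum_add_distrib]
    simp only [card_filter_add_card_filter_not, sum_const, smul_eq_mul]
  simp only [sum_add_distrib, sum_const, smul_eq_mul, ← sum_mul] at s1
  rw [← s4, add_mul (∑ y ∈ R, _)] at hn
  have := Nat.mul_le_mul_right (p.choose b) s3
  omega

omit [DecidableEq V] in
theorem inj [Nonempty V] (s : Finset ℕ) (B : Finset V) (h : #s ≤ #B) :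
    ∃ f : ℕ → V, (∀ i ∈ s, f i ∈ B) ∧ ∀ i ∈ s, ∀ j ∈ s, f i = f j → i = j := by
  obtain ⟨f, h1, h2⟩ := s.finite_toSet.exists_injOn_of_encard_le (t := (B : Set V)) (by
    simpa only [Set.encard_coe_eq_coe_finsetCard, Nat.cast_le] using h)
  exact ⟨f, fun i hi => h1 hi, fun i hi j hj e => h2 hi hj e⟩

theorem main [Nonempty V] (hH : H.CliqueFree 3) (w : ℕ) (hw : 2 ≤ w) (k : ℕ) (hk : ∀ j < k, ok w j)
    (s : Finset V) (hs : k + t k w ≤ #s) : ∃ φ : ℕ → V, (∀ i < k, φ i ∈ s) ∧
      ∀ i < k, ∀ j < k, (φ i = φ j → i = j) ∧ (i % w ≠ j % w → ¬ H.Adj (φ i) (φ j)) := by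
  induction k generalizing s with
  | zero => exact ⟨fun _ => Classical.arbitrary V, by simp, by simp⟩
  | succ k ih =>
    obtain ⟨s, hs', hs⟩ := exists_subset_card_eq hs
    obtain ⟨e1, e2, e3⟩ := hk k (by omega)
    have cs : ∀ x ∈ s, #((s.erase x).filter fun y => ¬ H.Adj x y) + #(s.filter (H.Adj x)) + 1 = #s :=
      fun x hx => by
        rw [← card_filter_add_card_filter_not (s := s) (H.Adj x), filter_erase,
          card_erase_of_mem (by simp [hx])]
        have : 0 < #(s.filter fun y => ¬ H.Adj x y) := card_pos.mpr ⟨x, by simp [hx]⟩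
        omega
    have kw := Nat.div_le_self k w
    by_cases c : ∃ x ∈ s, #(s.filter (H.Adj x)) ≤ k - k / w
    · obtain ⟨x, hx, c⟩ := c
      obtain ⟨φ, h1, h2⟩ := ih (fun j hj => hk j (by omega))
        ((s.erase x).filter fun y => ¬ H.Adj x y) (by have := cs x hx; omega)
      simp only [mem_filter, mem_erase] at h1
      refine ⟨fun i => if i = k then x else φ i, fun i hi => hs' ?_, fun i hi j hj => ?_⟩
      · beta_reduce; split_ifs
        exacts [hx, (h1 i (by omega)).1.2]
      · beta_reduce; split_ifs with a b b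
        · exact ⟨fun _ => by omega, fun _ => H.irrefl⟩
        · exact ⟨fun e => ((h1 j (by omega)).1.1 e.symm).elim, fun _ => (h1 j (by omega)).2⟩
        · exact ⟨fun e => ((h1 i (by omega)).1.1 e).elim, fun _ e => (h1 i (by omega)).2 e.symm⟩
        · exact h2 i (by omega) j (by omega)
    push Not at c
    obtain ⟨x, hx, mx⟩ := exists_max_image s (fun x => #(s.filter (H.Adj x))) (card_pos.mp (by omega))
    set X := s.filter (H.Adj x) with hX
    set R := (s.erase x).filter fun y => ¬ H.Adj x y with hR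
    have cx := c x hx
    have cs' := cs x hx
    rw [← hX] at cx
    rw [← hX, ← hR] at cs'
    have ind : ∀ u ∈ X, ∀ v ∈ X, ¬ H.Adj u v := fun u hu v hv e =>
      hH _ (is3Clique_triple_iff.mpr ⟨(mem_filter.mp hu).2, (mem_filter.mp hv).2, e⟩)
    obtain ⟨A, hA, ca, cb⟩ : ∃ A ⊆ X, #A = k - k / w ∧
        k + 1 - #X ≤ #(R.filter fun y => ∀ u ∈ A, ¬ H.Adj u y) := by
      by_cases l : #X ≤ k
      · have := Nat.div_lt_self (show 0 < k by omega) hw
        obtain ⟨A, h1, h2, h3⟩ := avg H X R k (k - k / w) _ (by omega) (fun u hu => by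
          have := card_le_card (s := insert x (R.filter (H.Adj u))) (t := s.filter (H.Adj u))
            (insert_subset (mem_filter.mpr ⟨hx, (mem_filter.mp hu).2.symm⟩)
              (filter_subset_filter _ ((filter_subset _ _).trans (erase_subset _ _))))
          rw [card_insert_of_notMem (by simp [hR])] at this
          have := mx u (mem_filter.mp hu).1
          omega) (by
            rw [show #R = k + t k w + (k - k / w) - #X by omega]
            exact e3 _ (mem_Ioc.mpr ⟨cx, l⟩))
        exact ⟨A, h1, h2, by omega⟩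
      · obtain ⟨A, h1, h2⟩ := exists_subset_card_eq cx.le
        exact ⟨A, h1, h2, by omega⟩
    set B := (X \ A) ∪ R.filter fun y => ∀ u ∈ A, ¬ H.Adj u y with hB
    have bm : ∀ v ∈ B, v ∈ s ∧ ∀ u ∈ A, u ≠ v ∧ ¬ H.Adj u v := fun v hv => by
      rcases mem_union.mp hv with h | h
      · rw [mem_sdiff] at h
        exact ⟨(mem_filter.mp h.1).1, fun u hu => ⟨fun e => h.2 (e ▸ hu), ind u (hA hu) v h.1⟩⟩
      · simp only [hR, mem_filter, mem_erase] at h
        exact ⟨h.1.1.2, fun u hu => ⟨fun e => h.1.2 (e ▸ (mem_filter.mp (hA hu)).2), h.2 u hu⟩⟩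
    obtain ⟨f, f1, f2⟩ := inj ((range (k + 1)).filter (· % w = k % w)) B (by
      rw [hB, card_union_of_disjoint (Finset.disjoint_left.mpr fun v h1 h2 => by
        simp only [hX, hR, mem_filter, mem_sdiff] at h1 h2
        exact h2.1.2 h1.1.2), card_sdiff_of_subset hA]
      omega)
    obtain ⟨g, g1, g2⟩ := inj ((range (k + 1)).filter (¬ · % w = k % w)) A (by
      have := card_filter_add_card_filter_not (s := range (k + 1)) (· % w = k % w)
      rw [card_range] at this
      omega)
    simp only [mem_filter, mem_range, and_imp] at f1 f2 g1 g2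
    refine ⟨fun i => if i % w = k % w then f i else g i, fun i hi => hs' ?_, fun i hi j hj => ?_⟩
    · beta_reduce; split_ifs with a
      exacts [(bm _ (f1 i hi a)).1, (mem_filter.mp (hA (g1 i hi a))).1]
    · beta_reduce; split_ifs with a b b
      · exact ⟨f2 i hi a j hj b, fun n => (n (a.trans b.symm)).elim⟩
      · have := (bm _ (f1 i hi a)).2 _ (g1 j hj b)
        exact ⟨fun e => (this.1 e.symm).elim, fun _ e => this.2 e.symm⟩
      · have := (bm _ (f1 j hj b)).2 _ (g1 i hi a)
        exact ⟨fun e => (this.1 e).elim, fun _ => this.2⟩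
      · exact ⟨g2 i hi a j hj b, fun _ => ind _ (hA (g1 i hi a)) _ (hA (g1 j hj b))⟩

theorem result (k w : ℕ) (hw : 2 ≤ w) (hk : w ≤ k) (h : Real.log k < (3 * w - 1) / (w - 1))
    (H : SimpleGraph (Fin (k + (turanGraph k w).edgeFinset.card))) (hH : H.CliqueFree 3) :
    (turanGraph k w).IsContained Hᶜ := by
  classical
  have : Nonempty (Fin (k + (turanGraph k w).edgeFinset.card)) := ⟨⟨0, by omega⟩⟩
  have lg : ∀ n : ℕ, Real.log k < n → (k : ℝ) < 2.7182818286 ^ n := fun n hn => by
    rw [Real.log_lt_iff_lt_exp (by exact_mod_cast (by omega : 0 < k)), ← Real.exp_one_pow] at hn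
    exact hn.trans_le (pow_le_pow_left₀ (Real.exp_pos 1).le Real.exp_one_lt_d9.le n)
  obtain ⟨φ, -, h2⟩ := main H hH w hw k (fun j hj => by
    rcases hw.eq_or_lt with rfl | l
    · have : (k : ℝ) < 149 := (lg 5 (h.trans_le (by norm_num))).trans (by norm_num)
      exact ok2 j (by have : k < 149 := by exact_mod_cast this
                      omega)
    · have w3 : (3 : ℝ) ≤ w := by exact_mod_cast l
      have : (k : ℝ) < 55 := (lg 4 (h.trans_le (by
        rw [div_le_iff₀ (by linarith)]; push_cast; linarith))).trans (by norm_num)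
      have : k < 55 := by exact_mod_cast this
      exact ok3 w (by omega) l j (by omega)) univ (by
    rw [card_univ, Fintype.card_fin, card_edgeFinset_turanGraph, t, Nat.choose_two_right])
  exact ⟨⟨⟨fun i => φ i, fun {i j} e => ⟨fun q => e.ne (Fin.ext ((h2 i i.2 j j.2).1 q)),
    (h2 i i.2 j j.2).2 e⟩⟩, fun i j q => Fin.ext ((h2 i i.2 j j.2).1 q)⟩⟩

end Pool.Agent.Results.MP_1de1cd_co.Turan
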